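import Mathlib
import Pool.Agent.H46R3.PartDefs
import Pool.Agent.H46R3.PartLow

set_option autoImplicit false

/-!
Partite Turán densities need not stabilise in the number of parts: for the `4`-graph with edges
`1234`, `1235`, `1245` the densities `d_t` tend to `1/4` but stay above `1/4` for every `t`. The gap
does not depend on the minimum size `M` of the parts.
-/

namespace Pool.Agent.Results.MP_5f5e6a_co.NotStable

open Pool.Agent.H46R3.Part

/-- There are `r ≥ 2` and an `r`-graph (with vertex set `Fin h` and edge set `E`) such that for every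
`t₀ ≥ h` there is `t > t₀` whose partite Turán density is smaller than that of `t₀`, and by an amount
that does not depend on the lower bound `M` imposed on the sizes of the parts. -/
theorem result : ∃ (r h : ℕ) (E : Finset (Finset (Fin h))), 2 ≤ r ∧ (∀ e ∈ E, e.card = r) ∧
    ∀ t₀, h ≤ t₀ → ∃ t, t₀ < t ∧ ∃ ε : ℝ, 0 < ε ∧
      ∀ M : ℕ, dT M r t E + ε ≤ dT M r t₀ E :=
  ⟨4, 5, E3, by norm_num, by decide, fun t₀ ht => main t₀ ht⟩

end Pool.Agent.Results.MP_5f5e6a_co.NotStable
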